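import Pool.Agent.H44.AR.BasicA

/-!
# All reducts, all arities: composition of a canonical Olšák map with canonical homomorphisms
-/

set_option autoImplicit false
set_option linter.unusedVariables false

namespace Pool.Agent.H63.AR

open Pool.Agent.H68.BP Pool.Agent.H58.SF Pool.Agent.H53.GC Pool.Agent.H53.NR Pool.Agent.H53.GR
open Pool.Agent.H57.AR Pool.Agent.H44.AR
open Pool.Agent.H57.SO (Pal Col vt Sb FBl)
open Pool.Agent.H57.EQ (Cx)
open Function

section

variable {V V' W : Type} [LinearOrder V] [LinearOrder V'] {σ ρ ρ' : Sig} {𝔹 : Str ρ V}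
  {𝔹' : Str ρ' V'} {m' : (k : ℕ) → OT ρ' (Fin k) → OT ρ (Fin k)}

theorem ot_ext {t t' : OT ρ W} (h : ∀ (k : ℕ) (z : Fin k → W), pullO t z = pullO t' z) :
    t = t' := by
  refine Prod.ext ?_ ?_
  · funext l z
    exact congrFun (congrFun (congrArg Prod.fst (h _ z)) l) (fun a => a)
  · funext a b
    exact congrFun (congrFun (congrArg Prod.snd (h 2 ![a, b])) 0) 1

/-- `ψ` has the types given by `m'` -/
def Rz (𝔹 : Str ρ V) (𝔹' : Str ρ' V') (m' : (k : ℕ) → OT ρ' (Fin k) → OT ρ (Fin k)) (G : W → V')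
    (ψ : W → V) : Prop :=
  ∀ (k : ℕ) (z : Fin k → W), tpo 𝔹 (fun a => ψ (z a)) = m' k (tpo 𝔹' (fun a => G (z a)))

theorem Rz.tpo {G G' : W → V'} {ψ ψ' : W → V} (h : Rz 𝔹 𝔹' m' G ψ) (h' : Rz 𝔹 𝔹' m' G' ψ')
    (hG : tpo 𝔹' G = tpo 𝔹' G') : tpo 𝔹 ψ = tpo 𝔹 ψ' := by
  refine ot_ext fun k z => ?_
  rw [pullO_tpo, pullO_tpo, h k z, h' k z, tpo_comp hG z]

theorem Rz.comp {G : W → V'} {ψ : W → V} (h : Rz 𝔹 𝔹' m' G ψ) {Z : Type} (s : Z → W) :
    Rz 𝔹 𝔹' m' (fun a => G (s a)) (fun a => ψ (s a)) := fun k z => h k (fun a => s (z a))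

end

theorem pf_PRE : T_PRE := by
  intro σ ρ ρ' V V' _ _ 𝔸 𝔹 𝔸' 𝔹' h m m' hne har hpm htid hex hm hm'
  -- the values
  choose Ψ hΨ1 hΨ2 using fun (k : ℕ) (v : Fin k → Fin 6 → V') =>
    hm' (Fin k × Fin 6) (fun q => v q.1 q.2)
  have hR : ∀ (k : ℕ) (v : Fin k → Fin 6 → V'),
      Rz 𝔹 𝔹' m' (fun q : Fin k × Fin 6 => v q.1 q.2) (Ψ k v) := fun k v => hΨ2 k v
  obtain ⟨T, hT⟩ : ∃ T : (k : ℕ) → (Fin k → Fin 6 → V') → OT ρ' (Fin k),
      ∀ k v, T k v = m k (pullO h (fun a i => Ψ k v (a, i))) := ⟨_, fun _ _ => rfl⟩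
  obtain ⟨h', hh1, hh2⟩ : ∃ h' : OT ρ' (Fin 6 → V'),
      (∀ l z, h'.1 l z = (T (ρ'.ar l) z).1 l (fun a => a)) ∧
      ∀ v w, h'.2 v w = (T 2 ![v, w]).2 0 1 :=
    ⟨(fun l z => (T (ρ'.ar l) z).1 l (fun a => a), fun v w => (T 2 ![v, w]).2 0 1),
      fun _ _ => rfl, fun _ _ => rfl⟩
  have hTv : ∀ (k : ℕ) (v : Fin k → Fin 6 → V') (ψ : Fin k × Fin 6 → V),
      Rz 𝔹 𝔹' m' (fun q : Fin k × Fin 6 => v q.1 q.2) ψ →
      T k v = m k (pullO h (fun a i => ψ (a, i))) := by
    intro k v ψ hψ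
    rw [hT]
    have h1 : tpo 𝔹 (Ψ k v) = tpo 𝔹 ψ := (hR k v).tpo hψ rfl
    exact congrArg (m k) (TID.tpo htid (v := fun a i => Ψ k v (a, i)) (v' := fun a i => ψ (a, i)) h1)
  have hval : ∀ (W : Type) (_ : Finite W) (v : W → Fin 6 → V') (ψ : W × Fin 6 → V),
      Rz 𝔹 𝔹' m' (fun q : W × Fin 6 => v q.1 q.2) ψ → ∀ (k : ℕ) (z : Fin k → W),
        pullO h' (fun a => v (z a)) = m k (pullO h (fun a i => ψ (z a, i))) := by
    intro W _ v ψ hψ k z
    have hTz : ∀ (j : ℕ) (w : Fin j → W), T j (fun a => v (w a)) =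
        m j (pullO h (fun a i => ψ (w a, i))) := fun j w =>
      hTv j (fun a => v (w a)) (fun q => ψ (w q.1, q.2))
        (hψ.comp (fun q : Fin j × Fin 6 => (w q.1, q.2)))
    have hpl : ∀ (j : ℕ) (w : Fin j → Fin k), pullO (m k (pullO h (fun a i => ψ (z a, i)))) w =
        m j (pullO h (fun a i => ψ (z (w a), i))) := by
      intro j w
      obtain ⟨u, -, hu⟩ := hpm (Fin k) (fun i a => ψ (z a, i))
      have h1 := hm.pull u w
      have h2 : tpo 𝔹 (fun a => u (w a)) = pullO h (fun a i => ψ (z (w a), i)) := by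
        rw [← pullO_tpo, hu]
        rfl
      rw [hu, h2] at h1
      exact h1
    refine Prod.ext ?_ ?_
    · funext l w
      have h1 := congrFun (congrFun (congrArg Prod.fst (hpl _ w)) l) (fun a => a)
      have h2 : (m k (pullO h (fun a i => ψ (z a, i)))).1 l w =
          (m (ρ'.ar l) (pullO h (fun a i => ψ (z (w a), i)))).1 l (fun a => a) := h1
      rw [h2, ← hTz _ (fun a => z (w a))]
      exact hh1 l (fun a => v (z (w a)))
    · funext a b
      have h1 := congrFun (congrFun (congrArg Prod.snd (hpl 2 ![a, b])) 0) 1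
      have h2 : (m k (pullO h (fun a i => ψ (z a, i)))).2 a b =
          (m 2 (pullO h (fun c i => ψ (z (![a, b] c), i)))).2 0 1 := h1
      rw [h2, ← hTz 2 (fun c => z (![a, b] c))]
      have h3 : (fun c : Fin 2 => v (z (![a, b] c))) = ![v (z a), v (z b)] := by
        funext c
        fin_cases c <;> rfl
      rw [h3]
      exact hh2 (v (z a)) (v (z b))
  refine ⟨h', ?_, ?_, ?_⟩
  · intro W _ G
    obtain ⟨ψ, h1, h2⟩ := hm' (W × Fin 6) (fun q => G q.2 q.1)
    obtain ⟨φ, h3, h4⟩ := hpm W (fun i w => ψ (w, i))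
    obtain ⟨χ, h5, h6⟩ := hm W φ
    refine ⟨χ, fun l z hz => h5 l z (h3 l z fun i => h1 l (fun a => (z a, i)) (hz i)), ?_⟩
    refine ot_ext fun k z => ?_
    rw [pullO_tpo, h6]
    have h7 := hval W ‹_› (fun w i => G i w) ψ h2 k z
    have h8 : tpo 𝔹 (fun a => φ (z a)) = pullO h (fun a i => ψ (z a, i)) := by
      rw [← pullO_tpo, h4]
      rfl
    rw [h8, ← h7]
    rfl
  · intro k v v' hs
    have h1 := hval (Fin k) inferInstance v (Ψ k v) (hΨ2 k v) k (fun a => a)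
    have h2 := hval (Fin k) inferInstance v' (Ψ k v') (hΨ2 k v') k (fun a => a)
    have h3 : tpo 𝔹 (Ψ k v) = tpo 𝔹 (Ψ k v') :=
      (hR k v).tpo (hR k v') hs.tpo
    have h4 := TID.tpo htid (v := fun a i => Ψ k v (a, i)) (v' := fun a i => Ψ k v' (a, i)) h3
    calc pullO h' v = m k (pullO h (fun a i => Ψ k v (a, i))) := h1
      _ = m k (pullO h (fun a i => Ψ k v' (a, i))) := by rw [h4]
      _ = pullO h' v' := h2.symm
  · intro r
    refine ot_ext fun k z => ?_
    obtain ⟨ψ, h1, h2⟩ := hm' (Fin k × Bool) (fun q => cond q.2 (z q.1).2 (z q.1).1)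
    have key : ∀ r : Fin 3, pullO h' (fun a => pat r (z a).1 (z a).2) =
        m k (pullO h (fun a => pat r (ψ (a, false)) (ψ (a, true)))) := by
      intro r
      have hG : (fun q : Fin k × Fin 6 => pat r (z q.1).1 (z q.1).2 q.2) =
          fun q : Fin k × Fin 6 => (fun q : Fin k × Bool => cond q.2 (z q.1).2 (z q.1).1)
            (q.1, pat r false true q.2) := by
        funext q
        have := pat_map (fun b : Bool => cond b (z q.1).2 (z q.1).1) r false true q.2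
        simpa using this.symm
      have h3 : Rz 𝔹 𝔹' m' (fun q : Fin k × Fin 6 => pat r (z q.1).1 (z q.1).2 q.2)
          (fun q => ψ (q.1, pat r false true q.2)) := by
        rw [hG]
        have h2' : Rz 𝔹 𝔹' m' (fun q : Fin k × Bool => cond q.2 (z q.1).2 (z q.1).1) ψ := h2
        exact h2'.comp (fun q : Fin k × Fin 6 => (q.1, pat r false true q.2))
      have h4 := hval (Fin k) inferInstance (fun a => pat r (z a).1 (z a).2)
        (fun q => ψ (q.1, pat r false true q.2)) h3 k (fun a => a)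
      rw [h4]
      congr 2
      funext a i
      exact pat_map (fun b : Bool => ψ (a, b)) r false true i
    have h5 := congrArg (fun t => pullO t (fun a : Fin k => (ψ (a, false), ψ (a, true)))) (hex r)
    have h6 : pullO h (fun a : Fin k => pat r (ψ (a, false)) (ψ (a, true))) =
        pullO h (fun a : Fin k => pat 0 (ψ (a, false)) (ψ (a, true))) := h5
    calc pullO (pullO h' (fun p : V' × V' => pat r p.1 p.2)) z
        = pullO h' (fun a => pat r (z a).1 (z a).2) := rfl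
      _ = pullO h' (fun a => pat 0 (z a).1 (z a).2) := by rw [key r, key 0, h6]
      _ = pullO (pullO h' (fun p : V' × V' => pat 0 p.1 p.2)) z := rfl

end Pool.Agent.H63.AR
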